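import Pool.Agent.H39.IX.Targets2
import Pool.Agent.H80.G2.MAIN

/-! row MAIN of MP_323167_an (board ixm): the theorem -/

set_option autoImplicit false

open scoped InnerProductSpace Topology
open Filter Finset Pool.Agent.H80.G2 Pool.Agent.H39.IX

namespace Pool.Agent.H38.IX

variable {H : Type} [NormedAddCommGroup H] [InnerProductSpace ℂ H] [CompleteSpace H]

lemma norm_UH {s : H →L[ℂ] H} (hs : UH s) : ‖s‖ ≤ 1 := by
  have h1 : ‖s‖ * ‖s‖ ≤ 1 := by
    rw [← CStarRing.norm_star_mul_self, hs.1]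
    exact ContinuousLinearMap.norm_id_le
  nlinarith [norm_nonneg s]

lemma conj_near {s y : H →L[ℂ] H} (hs : UH s) (hy : ‖y‖ ≤ 1) :
    ‖y - star s * y * s‖ ≤ 2 * ‖s - 1‖ := by
  have e : y - star s * y * s = (1 - star s) * y + star s * y * (1 - s) := by noncomm_ring
  have h1 : ‖(1 : H →L[ℂ] H) - star s‖ = ‖s - 1‖ := by
    rw [← norm_star, star_sub, star_one, star_star, norm_sub_rev]
  have h2 : ‖(1 : H →L[ℂ] H) - s‖ = ‖s - 1‖ := norm_sub_rev _ _
  have h3 : ‖(1 - star s) * y‖ ≤ ‖s - 1‖ := by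
    refine (norm_mul_le _ _).trans ?_
    rw [h1]
    nlinarith [norm_nonneg (s - 1), norm_nonneg y]
  have h4 : ‖star s * y * (1 - s)‖ ≤ ‖s - 1‖ := by
    refine (norm_mul_le _ _).trans ?_
    rw [h2]
    have h5 : ‖star s * y‖ ≤ 1 := by
      refine (norm_mul_le _ _).trans ?_
      rw [norm_star]
      nlinarith [norm_nonneg s, norm_nonneg y, norm_UH hs]
    nlinarith [norm_nonneg (s - 1), norm_nonneg (star s * y)]
  rw [e]
  refine (norm_add_le _ _).trans ?_
  linarith

lemma norm_conj {s y : H →L[ℂ] H} (hs : UH s) (hy : ‖y‖ ≤ 1) : ‖star s * y * s‖ ≤ 1 := by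
  have h0 := norm_UH hs
  have h5 : ‖star s * y‖ ≤ 1 := by
    refine (norm_mul_le _ _).trans ?_
    rw [norm_star]
    nlinarith [norm_nonneg s, norm_nonneg y]
  refine (norm_mul_le _ _).trans ?_
  nlinarith [norm_nonneg s, norm_nonneg (star s * y)]

lemma UH_star {s : H →L[ℂ] H} (hs : UH s) : UH (star s) :=
  ⟨by rw [star_star]; exact hs.2, by rw [star_star]; exact hs.1⟩

theorem pf_MAIN (hKAZ : T_KAZ) (hCNV : T_CNV) (hCNT : T_CNT) (hSIT : T_SIT) :
    Pool.Agent.H39.IX.T_MAIN := by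
  intro H _ _ _ M N P A w hM hN hI hAP hHF hReg hrc hd
  obtain ⟨n1, n2⟩ := nr_of_dist hd
  obtain ⟨ξ, hξ⟩ := hM.tr
  obtain ⟨ζ, hζ⟩ := hN.tr
  obtain ⟨G, hG, hGen⟩ := hHF
  have hGA : ∀ g, InG G g → g ∈ A := fun g hg => (hGen g).2 fun y hy => hy g hg
  have hGP : ∀ g, InG G g → g ∈ P := fun g hg => hAP g (hGA g hg)
  have hGM : ∀ g, InG G g → g ∈ M := fun g hg => hI.sub g (hGP g hg)
  have hGU : ∀ g, InG G g → Uni M g := by
    intro g hg
    obtain ⟨n, hn⟩ := hg
    refine ⟨hGM g ⟨n, hn⟩, hG.uni n g hn, ?_⟩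
    have h := hG.uni n (star g) (hG.star n g hn)
    rwa [star_star] at h
  have hnear : ∀ g, InG G g → ∃ y ∈ N, ‖g - y‖ ≤ 1 / 1000000000 := by
    intro g hg
    obtain ⟨y, hy, -, h⟩ := n1 g (hGM g hg) (norm_of_uni (hGU g hg))
    exact ⟨y, hy, h⟩
  obtain ⟨s, hs, hs1, hsN⟩ := hKAZ H N G hG (1 / 1000000000) (by norm_num) (by norm_num) hnear
  obtain ⟨Q, hQ⟩ := hCNV H N s hs
  obtain ⟨hc1, hc2⟩ := hCNT H N Q s hs hQ
  have hs2 : 2 * ‖s - 1‖ ≤ 600 / 1000000000 := by
    have : ‖s - 1‖ ≤ 300 * (1 / 1000000000) := hs1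
    linarith
  have hsit : Sit M Q P A w G ξ (fun n => star s (ζ n)) :=
    { idx := hI
      trM := hξ
      trN := hc1 ζ hζ
      grp := hG
      gen := hGen
      GP := hGP
      GN := fun g hg => (hQ g).2 (hsN g hg)
      rc := fun x hx hx' => hrc x hx fun a ha => (hGen a).1 ha x hx'
      reg := hReg
      nMN := by
        intro x hx hx1
        obtain ⟨y, hy, hy1, hxy⟩ := n1 x hx hx1
        refine ⟨star s * y * s, (hQ _).2 ?_, norm_conj hs hy1, ?_⟩
        · have e : s * (star s * y * s) * star s = (s * star s) * y * (s * star s) := by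
            noncomm_ring
          rw [e, hs.2, one_mul, mul_one]
          exact hy
        · have h1 := conj_near hs hy1
          have h2 := norm_sub_le_norm_sub_add_norm_sub x y (star s * y * s)
          linarith
      nNM := by
        intro x hx hx1
        have h0 : ‖s * x * star s‖ ≤ 1 := by
          have h := norm_conj (UH_star hs) hx1
          rwa [star_star] at h
        obtain ⟨y, hy, hy1, hxy⟩ := n2 (s * x * star s) ((hQ x).1 hx) h0
        refine ⟨y, hy, hy1, ?_⟩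
        have h1 := conj_near (UH_star hs) hx1
        rw [star_star] at h1
        have h3 : ‖star s - 1‖ = ‖s - 1‖ := by
          rw [← norm_star, star_sub, star_one, star_star]
        rw [h3] at h1
        have h2 := norm_sub_le_norm_sub_add_norm_sub x (s * x * star s) y
        linarith }
  exact hc2 (hSIT H M Q P A w G ξ _ hsit)

end Pool.Agent.H38.IX
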