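import Pool.Agent.H39.IX.Targets2

/-! row SQP of MP_323167_an (board ixm): `Q` is near `P` -/

set_option autoImplicit false

open scoped InnerProductSpace Topology
open Filter Finset Pool.Agent.H80.G2 Pool.Agent.H39.IX

namespace Pool.Agent.H38.IX

theorem pf_SQP (hNPR : T_NPR) (hQPN : T_QPN) (hKAP : T_KAP) (hS5 : T_S5) (hWKC : T_WKC) : T_SQP := by
  intro H _ _ _ M N P A Q w G ξ ζ hS hPN y0 hy0
  obtain ⟨-, ⟨hV1, hVs, hVm⟩, -⟩ := hNPR H M N P A w G ξ ζ hS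
  obtain ⟨-, hQN, -⟩ := hQPN H M N P A Q w G ξ ζ hS hPN
  have hw1 : ‖w‖ ≤ 1 := norm_of_uni hS.idx.uni
  -- self-adjoint contractions
  have step1 : ∀ y ∈ Q, star y = y → ‖y‖ ≤ 1 → ∃ a ∈ P, ‖y - a‖ ≤ 2 / 1000000 := by
    intro y hy hys hy1
    refine hWKC H N P ζ hS.trN y (hQN y hy) (2 / 1000000) fun δ hδ => ?_
    obtain ⟨s, hs, hsN, hss, hs1, hn⟩ := hKAP H N ζ hS.trN {v | VN N P A G v} (fun v hv => hv.1.1)
      hVs (fun u hu v hv => hVm u v hu hv) hV1 y (hQN y hy) hys hy1 ((hPN y).1 hy) δ hδ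
    obtain ⟨x, hx, hx1, hsx⟩ := hS.nNM s hsN hs1
    obtain ⟨a, ha, z, hz, rfl⟩ := hS.idx.dec x hx
    have h1 := hS5 H M N P A w G ξ ζ hS s hs a ha z hz (1 / 1000000) (by rw [norm_sub_rev]; exact hsx)
    refine ⟨s, hsN, hs1, hn, a, ha, ?_⟩
    have e : s - a = (s - (a + z * w)) + z * w := by abel
    rw [e]
    refine (norm_add_le _ _).trans ?_
    have h2 : ‖z * w‖ ≤ 1 / 1000000 := by
      refine (norm_mul_le _ _).trans ?_
      nlinarith [norm_nonneg z, norm_nonneg w]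
    linarith
  -- scaling
  have step2 : ∀ y ∈ Q, star y = y → ∃ a ∈ P, ‖y - a‖ ≤ 2 / 1000000 * ‖y‖ := by
    intro y hy hys
    rcases eq_or_ne y 0 with h0 | h0
    · refine ⟨0, zero_mem _, ?_⟩
      rw [h0, sub_zero, norm_zero, mul_zero]
    · have hn : 0 < ‖y‖ := norm_pos_iff.2 h0
      have hc : ‖((‖y‖⁻¹ : ℝ) : ℂ)‖ = ‖y‖⁻¹ := by
        rw [Complex.norm_real, Real.norm_of_nonneg (by positivity)]
      obtain ⟨a, ha, hya⟩ := step1 (((‖y‖⁻¹ : ℝ) : ℂ) • y) (smul_mem' Q _ hy) (by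
        rw [star_smul, hys]
        congr 1
        exact Complex.conj_ofReal _) (by
        rw [norm_smul, hc, inv_mul_cancel₀ hn.ne'])
      refine ⟨((‖y‖ : ℝ) : ℂ) • a, smul_mem' P _ ha, ?_⟩
      have e : y - ((‖y‖ : ℝ) : ℂ) • a = ((‖y‖ : ℝ) : ℂ) • ((((‖y‖⁻¹ : ℝ) : ℂ) • y) - a) := by
        rw [smul_sub, smul_smul, ← Complex.ofReal_mul, mul_inv_cancel₀ hn.ne', Complex.ofReal_one,
          one_smul]
      rw [e, norm_smul, Complex.norm_real, Real.norm_of_nonneg hn.le]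
      nlinarith
  -- real and imaginary parts
  have hsy : star y0 ∈ Q := star_mem hy0
  obtain ⟨a1, ha1, h1⟩ := step2 ((1 / 2 : ℂ) • (y0 + star y0)) (smul_mem' Q _ (add_mem hy0 hsy)) (by
    rw [star_smul, star_add, star_star, add_comm (star y0) y0]
    congr 1
    simp)
  obtain ⟨a2, ha2, h2⟩ := step2 ((-Complex.I / 2 : ℂ) • (y0 - star y0))
    (smul_mem' Q _ (sub_mem hy0 hsy)) (by
    rw [star_smul, star_sub, star_star, ← neg_sub y0 (star y0), smul_neg, ← neg_smul]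
    congr 1
    simp
    ring)
  have n1 : ‖(1 / 2 : ℂ) • (y0 + star y0)‖ ≤ ‖y0‖ := by
    rw [norm_smul]
    have h3 : ‖(1 / 2 : ℂ)‖ = 1 / 2 := by norm_num
    have h4 := norm_add_le y0 (star y0)
    rw [norm_star] at h4
    rw [h3]
    linarith
  have n2' : ‖(-Complex.I / 2 : ℂ) • (y0 - star y0)‖ ≤ ‖y0‖ := by
    rw [norm_smul]
    have h3 : ‖(-Complex.I / 2 : ℂ)‖ = 1 / 2 := by
      rw [norm_div, norm_neg, Complex.norm_I]
      norm_num
    have h4 := norm_sub_le y0 (star y0)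
    rw [norm_star] at h4
    rw [h3]
    linarith
  refine ⟨a1 + Complex.I • a2, add_mem ha1 (smul_mem' P _ ha2), ?_⟩
  have e : y0 - (a1 + Complex.I • a2) = ((1 / 2 : ℂ) • (y0 + star y0) - a1) +
      Complex.I • ((-Complex.I / 2 : ℂ) • (y0 - star y0) - a2) := by
    have e1 : Complex.I * (-Complex.I / 2) = 1 / 2 := by
      have h5 : Complex.I * Complex.I = -1 := Complex.I_mul_I
      linear_combination (-1 / 2 : ℂ) * h5
    rw [smul_sub, smul_smul, e1]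
    have e2 : y0 = (1 / 2 : ℂ) • (y0 + star y0) + (1 / 2 : ℂ) • (y0 - star y0) := by
      rw [← smul_add, add_add_sub_cancel, ← two_smul ℂ y0, smul_smul]
      norm_num
    conv_lhs => rw [e2]
    abel
  rw [e]
  refine (norm_add_le _ _).trans ?_
  rw [norm_smul, Complex.norm_I, one_mul]
  linarith

end Pool.Agent.H38.IX
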